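import Mathlib
import Pool.Agent.Lib.Brouwer.Brouwer

/-!
# Chebyshev sets in finite-dimensional normed spaces: closedness, continuity of the metric
projection and the sun property
-/

open Set Filter Topology Metric

namespace Pool.Agent.Lib.P6b15b2

variable {E : Type*} [NormedAddCommGroup E] [NormedSpace ℝ E]

/-- `g` is a nearest point of `x` in `G` -/
def Near (G : Set E) (x g : E) : Prop := g ∈ G ∧ ∀ h ∈ G, ‖x - g‖ ≤ ‖x - h‖

/-- every point has exactly one nearest point in `G` -/
def Cheb (G : Set E) : Prop := ∀ x : E, ∃! g, Near G x g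

variable {G : Set E}

/-- the metric projection -/
noncomputable def Cheb.P (hG : Cheb G) (x : E) : E := (hG x).choose

theorem Cheb.near (hG : Cheb G) (x : E) : Near G x (hG.P x) := (hG x).choose_spec.1

theorem Cheb.eq (hG : Cheb G) {x g : E} (h : Near G x g) : g = hG.P x :=
  (hG x).choose_spec.2 g h

theorem Cheb.P_of_mem (hG : Cheb G) {x : E} (hx : x ∈ G) : hG.P x = x :=
  (hG.eq ⟨hx, fun h _ => by simp⟩).symm

theorem Cheb.isClosed (hG : Cheb G) : IsClosed G := by
  refine isClosed_of_closure_subset fun x hx => ?_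
  have h1 : ‖x - hG.P x‖ ≤ 0 := by
    refine le_of_forall_pos_le_add fun e he => ?_
    obtain ⟨h, hh, hd⟩ := Metric.mem_closure_iff.1 hx e he
    rw [zero_add]
    refine ((hG.near x).2 h hh).trans ?_
    rw [← dist_eq_norm]
    exact hd.le
  have h2 : x = hG.P x := sub_eq_zero.1 (norm_eq_zero.1 (le_antisymm h1 (norm_nonneg _)))
  rw [h2]
  exact (hG.near x).1

theorem Cheb.nonempty (hG : Cheb G) : G.Nonempty := ⟨_, (hG.near 0).1⟩

variable [FiniteDimensional ℝ E]

theorem Cheb.continuous (hG : Cheb G) : Continuous hG.P := by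
  have : ProperSpace E := FiniteDimensional.proper ℝ E
  rw [continuous_iff_ultrafilter]
  intro x u hu
  -- the projections stay in a compact ball
  have hball : ∀ᶠ y in (u : Filter E), hG.P y ∈ closedBall x (‖x - hG.P x‖ + 2) := by
    have h1 : ∀ᶠ y in (u : Filter E), y ∈ ball x 1 := hu (ball_mem_nhds x one_pos)
    filter_upwards [h1] with y hy
    rw [mem_ball, dist_eq_norm] at hy
    rw [mem_closedBall, dist_eq_norm]
    have h2 := (hG.near y).2 _ (hG.near x).1
    have h3 : ‖hG.P y - x‖ ≤ ‖y - hG.P y‖ + ‖y - x‖ := by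
      have : hG.P y - x = (y - x) - (y - hG.P y) := by abel
      rw [this]
      linarith [norm_sub_le (y - x) (y - hG.P y)]
    have h4 : ‖y - hG.P x‖ ≤ ‖y - x‖ + ‖x - hG.P x‖ := by
      have : y - hG.P x = (y - x) + (x - hG.P x) := by abel
      rw [this]
      exact norm_add_le _ _
    linarith
  obtain ⟨a, -, ha⟩ := isCompact_iff_ultrafilter_le_nhds.1 (isCompact_closedBall x _)
    (u.map hG.P) (le_principal_iff.2 hball)
  have hconv : Tendsto hG.P u (𝓝 a) := ha
  have hid : Tendsto (fun y : E => y) u (𝓝 x) := hu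
  have hnear : Near G x a := by
    constructor
    · exact hG.isClosed.mem_of_tendsto hconv (Eventually.of_forall fun y => (hG.near y).1)
    · intro h hh
      exact le_of_tendsto_of_tendsto (hid.sub hconv).norm (hid.sub_const h).norm
        (Eventually.of_forall fun y => (hG.near y).2 h hh)
  rw [← hG.eq hnear]
  exact hconv

/-- Chebyshev sets are suns. -/
theorem Cheb.sun (hG : Cheb G) {x : E} (hx : x ∉ G) {r : ℝ} (hr : 0 < r) :
    hG.P (x + (r / ‖x - hG.P x‖) • (x - hG.P x)) = hG.P x := by
  have hne : ∀ y, x - hG.P y ≠ 0 := fun y h => hx (by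
    rw [sub_eq_zero] at h
    rw [h]
    exact (hG.near y).1)
  set F : E → E := fun y => x + (r / ‖x - hG.P y‖) • (x - hG.P y) with hF
  have hFc : Continuous F := by
    have h1 : Continuous fun y => x - hG.P y := continuous_const.sub hG.continuous
    exact continuous_const.add ((continuous_const.div h1.norm
      (fun y => norm_ne_zero_iff.2 (hne y))).smul h1)
  have hFn : ∀ y, ‖F y - x‖ = r := by
    intro y
    have h0 : 0 < ‖x - hG.P y‖ := norm_pos_iff.2 (hne y)
    have h1 : F y - x = (r / ‖x - hG.P y‖) • (x - hG.P y) := by simp [hF]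
    rw [h1, norm_smul, Real.norm_eq_abs, abs_of_pos (div_pos hr h0)]
    field_simp
  let φ : E ≃L[ℝ] EuclideanSpace ℝ (Fin (Module.finrank ℝ E)) := toEuclidean
  set R : ℝ := ‖(φ : E →L[ℝ] EuclideanSpace ℝ (Fin (Module.finrank ℝ E)))‖ * (‖x‖ + r) with hR
  have hR0 : 0 ≤ R := by positivity
  obtain ⟨v, -, hv⟩ := Pool.Agent.Lib.Brouwer.brouwer_closedBall hR0 (fun v => φ (F (φ.symm v)))
    (φ.continuous.comp (hFc.comp φ.symm.continuous)).continuousOn (by
      intro v _
      rw [mem_closedBall, dist_zero_right]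
      have h1 := (φ : E →L[ℝ] EuclideanSpace ℝ (Fin (Module.finrank ℝ E))).le_opNorm
        (F (φ.symm v))
      refine (show ‖φ (F (φ.symm v))‖ ≤ _ from h1).trans ?_
      rw [hR]
      refine mul_le_mul_of_nonneg_left ?_ (norm_nonneg _)
      have h2 := hFn (φ.symm v)
      have h3 : ‖F (φ.symm v)‖ ≤ ‖F (φ.symm v) - x‖ + ‖x‖ := by
        simpa using norm_add_le (F (φ.symm v) - x) x
      linarith)
  set y := φ.symm v with hy
  have hFy : F y = y := by
    have h1 : φ (F y) = v := hv
    rw [← φ.symm_apply_apply (F y), h1]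
  have h0 : 0 < ‖x - hG.P y‖ := norm_pos_iff.2 (hne y)
  have hyx : y - x = (r / ‖x - hG.P y‖) • (x - hG.P y) := by
    conv_lhs => rw [← hFy]
    simp [hF]
  have hyn : ‖y - x‖ = r := by
    have := hFn y
    rwa [hFy] at this
  have hyP : ‖y - hG.P y‖ = r + ‖x - hG.P y‖ := by
    have h1 : y - hG.P y = (r / ‖x - hG.P y‖ + 1) • (x - hG.P y) := by
      rw [add_smul, one_smul, ← hyx]
      abel
    rw [h1, norm_smul, Real.norm_eq_abs, abs_of_pos (by positivity)]
    field_simp
  have hPP : hG.P y = hG.P x := by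
    refine hG.eq ⟨(hG.near y).1, fun h hh => ?_⟩
    have h1 := (hG.near y).2 h hh
    have h2 : ‖y - h‖ ≤ ‖y - x‖ + ‖x - h‖ := by
      have : y - h = (y - x) + (x - h) := by abel
      rw [this]
      exact norm_add_le _ _
    linarith
  have hfin : x + (r / ‖x - hG.P x‖) • (x - hG.P x) = y := by
    rw [← hPP, ← hyx]
    abel
  rw [hfin, hPP]

end Pool.Agent.Lib.P6b15b2
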