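import Mathlib
import Pool.Agent.Lib.P6b15b2.Sun

/-!
# Proximal normals of Chebyshev sets that expose a smooth point are global normals
-/

open Set Filter Topology Metric

namespace Pool.Agent.Lib.P6b15b2

variable {E : Type*} [NormedAddCommGroup E] [NormedSpace ℝ E] {G : Set E}

/-- at most one norming functional of norm one -/
def Smooth (u : E) : Prop := ∀ f f' : StrongDual ℝ E, ‖f‖ = 1 → f u = 1 → ‖f'‖ = 1 → f' u = 1 →
  f = f'

variable [FiniteDimensional ℝ E]

theorem smooth_dir {u w : E} (hu : ‖u‖ = 1) (hsm : Smooth u)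
    (hw : ∀ ρ : ℝ, 0 < ρ → ρ ≤ ‖ρ • u - w‖) {f : StrongDual ℝ E} (hf : ‖f‖ = 1) (hfu : f u = 1) :
    f w ≤ 0 := by
  have : ProperSpace (StrongDual ℝ E) := FiniteDimensional.proper ℝ _
  set K : Set (StrongDual ℝ E) := closedBall 0 1 ∩ {f | f w ≤ 0} with hK
  have hKc : IsCompact K := by
    refine (isCompact_closedBall _ _).inter_right ?_
    exact isClosed_le (ContinuousLinearMap.apply ℝ ℝ w).continuous continuous_const
  have hKn : K.Nonempty := ⟨0, by simp [hK]⟩
  obtain ⟨f', hf'K, hf'⟩ := hKc.exists_isMaxOn hKn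
    (ContinuousLinearMap.apply ℝ ℝ u).continuous.continuousOn
  have hf'1 : ‖f'‖ ≤ 1 := by simpa using hf'K.1
  have hge : 1 ≤ f' u := by
    refine le_of_forall_pos_le_add fun e he => ?_
    -- choose `ρ` large
    set ρ : ℝ := (‖w‖ + 1) / e with hρ
    have hρ0 : 0 < ρ := by positivity
    obtain ⟨k, hk1, hk2⟩ := exists_dual_vector'' ℝ (ρ • u - w)
    have h1 : ρ ≤ k (ρ • u - w) := by
      rw [hk2]
      exact hw ρ hρ0
    rw [map_sub, map_smul, smul_eq_mul] at h1
    have hku : k u ≤ 1 := by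
      have := k.le_opNorm u
      rw [hu, mul_one] at this
      exact (le_abs_self _).trans (this.trans hk1)
    have hkw : |k w| ≤ ‖w‖ := by
      have := k.le_opNorm w
      calc |k w| ≤ ‖k‖ * ‖w‖ := this
        _ ≤ 1 * ‖w‖ := by gcongr
        _ = ‖w‖ := one_mul _
    have hkw0 : k w ≤ 0 := by nlinarith
    have hkK : k ∈ K := ⟨by simpa using hk1, hkw0⟩
    have h2 : k u ≤ f' u := hf' hkK
    have h3 : ρ * (1 - k u) ≤ ‖w‖ := by
      have := (abs_le.1 hkw).1
      nlinarith
    have h4 : 1 - k u ≤ e := by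
      by_contra hcon
      rw [not_le] at hcon
      have h5 : ρ * e < ρ * (1 - k u) := by gcongr
      have h6 : ρ * e = ‖w‖ + 1 := by
        rw [hρ]
        field_simp
      linarith
    linarith
  have hle : f' u ≤ ‖f'‖ := by
    have := f'.le_opNorm u
    rw [hu, mul_one] at this
    exact (le_abs_self _).trans this
  have hn : ‖f'‖ = 1 := le_antisymm hf'1 (hge.trans hle)
  have h1 : f' u = 1 := le_antisymm (hle.trans hf'1) hge
  rw [hsm f f' hf hfu hn h1]
  exact hf'K.2

omit [FiniteDimensional ℝ E] in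
theorem smul_norm_aux {r ρ : ℝ} {z : E} (hr : 0 < r) (hz : z ≠ 0) :
    (ρ / ‖r • z‖) • (r • z) = ρ • ((1 / ‖z‖) • z) := by
  have h4 : 0 < ‖z‖ := norm_pos_iff.2 hz
  rw [norm_smul, Real.norm_eq_abs, abs_of_pos hr, smul_smul, smul_smul]
  have h5 : ρ / (r * ‖z‖) * r = ρ * (1 / ‖z‖) := by field_simp
  rw [h5]

/-- If `ℓ` is a proximal normal of the Chebyshev set `G` at `g` and `ℓ` exposes a smooth point of
the unit ball then `ℓ` attains its maximum over `G` at `g`. -/
theorem global_normal (hG : Cheb G) {g : E} (hg : g ∈ G) (ℓ : StrongDual ℝ E) {C : ℝ}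
    (hC0 : 0 ≤ C) (hC : ∀ h ∈ G, ℓ (h - g) ≤ C * ‖h - g‖ ^ 2) {u : E} (hu : ‖u‖ = 1)
    (hmax : ∀ w, ‖w‖ ≤ 1 → ℓ w ≤ ℓ u ∧ (ℓ u ≤ ℓ w → w = u)) (hsm : Smooth u) :
    ∀ h ∈ G, ℓ (h - g) ≤ 0 := by
  have : ProperSpace E := FiniteDimensional.proper ℝ E
  have hu0 : u ≠ 0 := by
    rintro rfl
    simp at hu
  have hℓu : 0 < ℓ u := by
    by_contra hcon
    rw [not_lt] at hcon
    exact hu0 ((hmax 0 (by simp)).2 (by simpa using hcon)).symm
  set y : ℝ → E := fun r => g + r • u with hy
  have hyc : Continuous y := continuous_const.add (continuous_id.smul continuous_const)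
  set σ : ℝ → E := fun r => (1 / r) • (y r - hG.P (y r)) with hσ
  have hd : ∀ r, 0 < r → ‖y r - hG.P (y r)‖ ≤ r := by
    intro r hr
    have := (hG.near (y r)).2 g hg
    have h2 : y r - g = r • u := by simp [hy]
    rw [h2, norm_smul, hu, mul_one, Real.norm_eq_abs, abs_of_pos hr] at this
    exact this
  have hσ1 : ∀ r, 0 < r → ‖σ r‖ ≤ 1 := by
    intro r hr
    rw [hσ]
    simp only
    rw [norm_smul, Real.norm_eq_abs, abs_of_pos (by positivity), one_div, inv_mul_le_one₀ hr]
    exact hd r hr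
  have hσℓ : ∀ r, 0 < r → ℓ u - 4 * C * r ≤ ℓ (σ r) := by
    intro r hr
    have h1 : ‖hG.P (y r) - g‖ ≤ 2 * r := by
      have e1 : hG.P (y r) - g = r • u - (y r - hG.P (y r)) := by
        simp only [hy]
        abel
      rw [e1]
      refine (norm_sub_le _ _).trans ?_
      rw [norm_smul, hu, mul_one, Real.norm_eq_abs, abs_of_pos hr]
      linarith [hd r hr]
    have h2 : ℓ (hG.P (y r) - g) ≤ C * (2 * r) ^ 2 := by
      refine (hC _ (hG.near (y r)).1).trans ?_
      gcongr
    have h3 : σ r = u - (1 / r) • (hG.P (y r) - g) := by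
      simp only [hσ, hy]
      have e1 : g + r • u - hG.P (g + r • u) = r • u - (hG.P (g + r • u) - g) := by abel
      rw [e1, smul_sub, smul_smul]
      have : 1 / r * r = 1 := by field_simp
      rw [this, one_smul]
    rw [h3, map_sub, map_smul, smul_eq_mul]
    have h4 : 1 / r * ℓ (hG.P (y r) - g) ≤ 1 / r * (C * (2 * r) ^ 2) := by gcongr
    have h5 : 1 / r * (C * (2 * r) ^ 2) = 4 * C * r := by
      field_simp
      ring
    linarith
  have hσt : Tendsto σ (𝓝[>] 0) (𝓝 u) := by
    rw [tendsto_iff_ultrafilter]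
    intro v hv
    have hpos : ∀ᶠ r in (v : Filter ℝ), 0 < r := hv self_mem_nhdsWithin
    obtain ⟨a, ha1, ha⟩ := isCompact_iff_ultrafilter_le_nhds.1 (isCompact_closedBall (0 : E) 1)
      (v.map σ) (le_principal_iff.2 (by
        have : ∀ᶠ r in (v : Filter ℝ), σ r ∈ closedBall (0 : E) 1 := by
          filter_upwards [hpos] with r hr
          simpa using hσ1 r hr
        exact this))
    have hconv : Tendsto σ v (𝓝 a) := ha
    have hid : Tendsto (fun r : ℝ => r) v (𝓝 0) := hv.trans nhdsWithin_le_nhds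
    have h1 : ℓ u ≤ ℓ a := by
      have hl : Tendsto (fun r => ℓ u - 4 * C * r) v (𝓝 (ℓ u - 4 * C * 0)) :=
        tendsto_const_nhds.sub (hid.const_mul _)
      have hr : Tendsto (fun r => ℓ (σ r)) v (𝓝 (ℓ a)) := (ℓ.continuous.tendsto a).comp hconv
      have := le_of_tendsto_of_tendsto hl hr (by
        filter_upwards [hpos] with r hr
        exact hσℓ r hr)
      simpa using this
    have h2 : a = u := (hmax a (by simpa using ha1)).2 h1
    rw [← h2]
    exact hconv
  have hy0 : Tendsto y (𝓝[>] 0) (𝓝 g) := by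
    have := (hyc.tendsto 0).mono_left (nhdsWithin_le_nhds (s := Ioi (0 : ℝ)))
    simpa [hy] using this
  -- the whole ray from `g` in direction `u` projects to `g`
  have hray : ∀ ρ : ℝ, 0 < ρ → hG.P (g + ρ • u) = g := by
    intro ρ hρ
    have hne : ∀ᶠ r in 𝓝[>] (0 : ℝ), σ r ≠ 0 := hσt.eventually_ne hu0
    have hev : ∀ᶠ r in 𝓝[>] (0 : ℝ),
        hG.P (y r + ρ • ((1 / ‖σ r‖) • σ r)) = hG.P (y r) := by
      filter_upwards [hne, self_mem_nhdsWithin] with r hr hr0
      rw [mem_Ioi] at hr0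
      have hyG : y r ∉ G := by
        intro hmem
        refine hr ?_
        simp [hσ, hG.P_of_mem hmem]
      have h1 := hG.sun hyG hρ
      have h2 : (ρ / ‖y r - hG.P (y r)‖) • (y r - hG.P (y r)) =
          ρ • ((1 / ‖σ r‖) • σ r) := by
        have h3 : y r - hG.P (y r) = r • σ r := by
          simp only [hσ]
          rw [smul_smul]
          have : r * (1 / r) = 1 := by field_simp
          rw [this, one_smul]
        have h4 : 0 < ‖σ r‖ := norm_pos_iff.2 hr
        rw [h3]
        exact smul_norm_aux hr0 hr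
      rw [← h2]
      exact h1
    have hl : Tendsto (fun r => hG.P (y r + ρ • ((1 / ‖σ r‖) • σ r))) (𝓝[>] 0)
        (𝓝 (hG.P (g + ρ • ((1 / ‖u‖) • u)))) := by
      refine (hG.continuous.tendsto _).comp ?_
      refine hy0.add (Tendsto.const_smul ?_ ρ)
      exact (tendsto_const_nhds.div hσt.norm (norm_ne_zero_iff.2 hu0)).smul hσt
    have hr : Tendsto (fun r => hG.P (y r)) (𝓝[>] 0) (𝓝 (hG.P g)) :=
      (hG.continuous.tendsto _).comp hy0
    rw [hu, div_one, one_smul] at hl
    rw [hG.P_of_mem hg] at hr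
    exact tendsto_nhds_unique (hl.congr' hev) hr
  intro h hh
  -- normalise `ℓ`
  have hℓn : ‖ℓ‖ = ℓ u := by
    apply le_antisymm
    · refine ℓ.opNorm_le_bound hℓu.le fun z => ?_
      rcases eq_or_ne z 0 with rfl | hz
      · simp
      · have hz0 : 0 < ‖z‖ := norm_pos_iff.2 hz
        have key : ∀ z : E, z ≠ 0 → ℓ z ≤ ℓ u * ‖z‖ := by
          intro z hz
          have hz0 : 0 < ‖z‖ := norm_pos_iff.2 hz
          have := (hmax ((1 / ‖z‖) • z) (by
            rw [norm_smul, Real.norm_eq_abs, abs_of_pos (by positivity)]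
            field_simp
            exact le_rfl)).1
          rw [map_smul, smul_eq_mul] at this
          have h2 : 1 / ‖z‖ * ℓ z * ‖z‖ ≤ ℓ u * ‖z‖ := by gcongr
          have h3 : 1 / ‖z‖ * ℓ z * ‖z‖ = ℓ z := by field_simp
          linarith
        rw [Real.norm_eq_abs, abs_le]
        constructor
        · have := key (-z) (neg_ne_zero.2 hz)
          rw [map_neg, norm_neg] at this
          linarith
        · exact key z hz
    · have := ℓ.le_opNorm u
      rw [hu, mul_one] at this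
      exact (le_abs_self _).trans this
  have hℓn0 : 0 < ‖ℓ‖ := by rw [hℓn]; exact hℓu
  have hdir : ((1 / ‖ℓ‖) • ℓ) (h - g) ≤ 0 := by
    refine smooth_dir hu hsm ?_ ?_ ?_
    · intro ρ hρ
      have h1 := (hG.near (g + ρ • u)).2 h hh
      rw [hray ρ hρ] at h1
      have h2 : g + ρ • u - g = ρ • u := by abel
      rw [h2, norm_smul, hu, mul_one, Real.norm_eq_abs, abs_of_pos hρ] at h1
      have h3 : ρ • u - (h - g) = g + ρ • u - h := by abel
      rw [h3]
      exact h1
    · rw [norm_smul, Real.norm_eq_abs, abs_of_pos (by positivity)]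
      field_simp
    · rw [_root_.smul_apply, smul_eq_mul, ← hℓn]
      field_simp
  rw [_root_.smul_apply, smul_eq_mul] at hdir
  by_contra hcon
  rw [not_le] at hcon
  have : 0 < 1 / ‖ℓ‖ * ℓ (h - g) := by positivity
  linarith

end Pool.Agent.Lib.P6b15b2
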