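import Mathlib
import Pool.Agent.Lib.P6b15b2.Normal

/-!
# The Euclidean distance function and the interpolation lemma
-/

open Set Filter Topology Metric
open scoped RealInnerProductSpace

namespace Pool.Agent.Lib.P6b15b2

variable {E : Type*} [NormedAddCommGroup E] [NormedSpace ℝ E]
variable {V : Type*} [NormedAddCommGroup V] [InnerProductSpace ℝ V]
variable (φ : E ≃L[ℝ] V) (G : Set E)

/-- `g` is a Euclidean nearest point of `x` in `G` -/
def N2 (x g : E) : Prop := g ∈ G ∧ ∀ h ∈ G, ‖φ (x - g)‖ ≤ ‖φ (x - h)‖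

/-- `u` maximises `⟪φ p, φ ·⟫` over the unit ball -/
def Mx (p u : E) : Prop := ‖u‖ ≤ 1 ∧ ∀ w : E, ‖w‖ ≤ 1 → ⟪φ p, φ w⟫ ≤ ⟪φ p, φ u⟫

/-- Euclidean distance to `G` -/
noncomputable def D (x : E) : ℝ := infDist (φ x) (φ '' G)

variable {G}

theorem D_cont : Continuous (D φ G) := (continuous_infDist_pt _).comp φ.continuous

theorem D_nonneg (x : E) : 0 ≤ D φ G x := infDist_nonneg

theorem D_le {x h : E} (hh : h ∈ G) : D φ G x ≤ ‖φ (x - h)‖ := by
  rw [map_sub, ← dist_eq_norm]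
  exact infDist_le_dist_of_mem (mem_image_of_mem _ hh)

theorem D_eq {x g : E} (hg : N2 φ G x g) : D φ G x = ‖φ (x - g)‖ := by
  refine le_antisymm (D_le φ hg.1) ?_
  unfold D
  rw [le_infDist ⟨_, mem_image_of_mem _ hg.1⟩]
  rintro _ ⟨h, hh, rfl⟩
  rw [dist_eq_norm, ← map_sub]
  exact hg.2 h hh

theorem exists_N2 [FiniteDimensional ℝ E] (hG : IsClosed G) (hne : G.Nonempty) (x : E) :
    ∃ g, N2 φ G x g := by
  have : FiniteDimensional ℝ V := LinearEquiv.finiteDimensional φ.toLinearEquiv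
  have : ProperSpace V := FiniteDimensional.proper ℝ V
  have hcl : IsClosed (φ '' G) := φ.toHomeomorph.isClosedMap _ hG
  obtain ⟨_, ⟨g, hg, rfl⟩, hd⟩ := hcl.exists_infDist_eq_dist (hne.image _) (φ x)
  refine ⟨g, hg, fun h hh => ?_⟩
  rw [map_sub, ← dist_eq_norm, ← hd]
  exact D_le φ hh

/-- The interpolation lemma. -/
theorem interp [FiniteDimensional ℝ E] {b : Set E} (hbc : IsCompact b) (hbv : Convex ℝ b)
    {x : E} {t : ℝ} (ht : 0 < t) (hb1 : ∀ u ∈ b, ‖u‖ ≤ 1)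
    (H : ∀ w : E, ‖w‖ ≤ 1 → ∃ g, N2 φ G (x - t • w) g ∧ ∃ u ∈ b, Mx φ (x - t • w - g) u)
    {w : E} (hw : ‖w‖ ≤ 1) : ∃ u ∈ b, D φ G (x - t • u) ≤ D φ G (x - t • w) := by
  have : ProperSpace E := FiniteDimensional.proper ℝ E
  by_contra hcon
  push Not at hcon
  obtain ⟨-, -, u₁, hu₁, -⟩ := H w hw
  have hDc : Continuous fun u : E => D φ G (x - t • u) :=
    (D_cont φ).comp (continuous_const.sub (continuous_const.smul continuous_id))
  obtain ⟨u₀, hu₀, hmin₀⟩ := hbc.exists_isMinOn ⟨u₁, hu₁⟩ hDc.continuousOn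
  set ε : ℝ := (D φ G (x - t • u₀) ^ 2 - D φ G (x - t • w) ^ 2) / 2 with hε
  have hε0 : 0 < ε := by
    have h1 := hcon u₀ hu₀
    have h2 := D_nonneg φ (G := G) (x - t • w)
    have : D φ G (x - t • w) ^ 2 < D φ G (x - t • u₀) ^ 2 := by gcongr
    rw [hε]
    linarith
  set F : ℝ × E × E → ℝ := fun q =>
    D φ G (x - t • ((1 - q.1) • q.2.1 + q.1 • q.2.2)) ^ 2 + ε * q.1 with hF
  have hFc : Continuous F := by
    have h1 : Continuous fun q : ℝ × E × E =>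
        x - t • ((1 - q.1) • q.2.1 + q.1 • q.2.2) := by fun_prop
    exact (((D_cont φ).comp h1).pow 2).add (continuous_const.mul continuous_fst)
  have hK : IsCompact (Icc (0 : ℝ) 1 ×ˢ b ×ˢ closedBall (0 : E) 1) :=
    isCompact_Icc.prod (hbc.prod (isCompact_closedBall _ _))
  have hw' : w ∈ closedBall (0 : E) 1 := by simpa using hw
  obtain ⟨⟨θ, u', û⟩, ⟨⟨hθ0, hθ1⟩, hu', hû⟩, hmin⟩ := hK.exists_isMinOn
    ⟨(1, u₀, w), ⟨⟨zero_le_one, le_rfl⟩, hu₀, hw'⟩⟩ hFc.continuousOn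
  have hle : F (θ, u', û) ≤ F (1, u₀, w) := hmin ⟨⟨zero_le_one, le_rfl⟩, hu₀, hw'⟩
  have hF1 : F (1, u₀, w) = D φ G (x - t • w) ^ 2 + ε := by simp [hF]
  have hθpos : 0 < θ := by
    rcases hθ0.eq_or_lt with h | h
    · exfalso
      subst h
      have hF0 : F (0, u', û) = D φ G (x - t • u') ^ 2 := by simp [hF]
      have h1 : D φ G (x - t • u₀) ≤ D φ G (x - t • u') := hmin₀ hu'
      have h2 : D φ G (x - t • u₀) ^ 2 ≤ D φ G (x - t • u') ^ 2 := by
        have := D_nonneg φ (G := G) (x - t • u₀)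
        gcongr
      rw [hF0, hF1] at hle
      rw [hε] at hle
      rw [hε] at hε0
      linarith
    · exact h
  set z : E := x - t • ((1 - θ) • u' + θ • û) with hz
  have hq1 : ‖(1 - θ) • u' + θ • û‖ ≤ 1 := by
    have hcv := convex_closedBall (0 : E) 1
    have hm : u' ∈ closedBall (0 : E) 1 := by simpa using hb1 u' hu'
    have := hcv hm hû (a := 1 - θ) (b := θ) (by linarith) hθ0 (by ring)
    simpa using this
  obtain ⟨g, hg, u, hu, hmx⟩ := H _ hq1
  rw [← hz] at hg hmx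
  set c : ℝ := ‖φ (u - û)‖ ^ 2 with hc
  have hc0 : 0 ≤ c := by positivity
  set δ : ℝ := min θ (ε / (2 * (t ^ 2 * c + 1))) with hδ
  have hden : 0 < 2 * (t ^ 2 * c + 1) := by positivity
  have hδ0 : 0 < δ := lt_min hθpos (div_pos hε0 hden)
  have hδθ : δ ≤ θ := min_le_left _ _
  have hδε : δ * (2 * (t ^ 2 * c + 1)) ≤ ε := by
    have := min_le_right θ (ε / (2 * (t ^ 2 * c + 1)))
    rw [← hδ, le_div_iff₀ hden] at this
    exact this
  have h1θ : 0 < 1 - (θ - δ) := by linarith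
  set u'' : E := ((1 - θ) / (1 - (θ - δ))) • u' + (δ / (1 - (θ - δ))) • u with hu''
  have hu''b : u'' ∈ b := by
    refine hbv hu' hu (div_nonneg (by linarith) h1θ.le) (div_nonneg hδ0.le h1θ.le) ?_
    field_simp
    ring
  have hmem : ((θ - δ, u'', û) : ℝ × E × E) ∈ Icc (0 : ℝ) 1 ×ˢ b ×ˢ closedBall (0 : E) 1 :=
    ⟨⟨by simp only; linarith, by simp only; linarith⟩, hu''b, hû⟩
  have hFmin : F (θ, u', û) ≤ F (θ - δ, u'', û) := hmin hmem
  have hz' : x - t • ((1 - (θ - δ)) • u'' + (θ - δ) • û) - g =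
      (z - g) - (t * δ) • (u - û) := by
    have h2 : (1 - (θ - δ)) • u'' = (1 - θ) • u' + δ • u := by
      rw [hu'', smul_add, smul_smul, smul_smul]
      congr 2 <;> field_simp
    rw [h2, hz]
    module
  have hD' : D φ G (x - t • ((1 - (θ - δ)) • u'' + (θ - δ) • û)) ^ 2 ≤
      D φ G z ^ 2 + (t * δ) ^ 2 * c := by
    have h2 := D_le φ (x := x - t • ((1 - (θ - δ)) • u'' + (θ - δ) • û)) hg.1
    have h3 : D φ G (x - t • ((1 - (θ - δ)) • u'' + (θ - δ) • û)) ^ 2 ≤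
        ‖φ (x - t • ((1 - (θ - δ)) • u'' + (θ - δ) • û) - g)‖ ^ 2 := by
      have := D_nonneg φ (G := G) (x - t • ((1 - (θ - δ)) • u'' + (θ - δ) • û))
      gcongr
    refine h3.trans ?_
    rw [hz', map_sub, map_smul, norm_sub_sq_real, D_eq φ hg, inner_smul_right, norm_smul,
      mul_pow, Real.norm_eq_abs, sq_abs]
    have h4 : 0 ≤ ⟪φ (z - g), φ (u - û)⟫ := by
      rw [map_sub φ u û, inner_sub_right]
      have := hmx.2 û (by simpa using hû)
      linarith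
    have h5 : 0 ≤ t * δ * ⟪φ (z - g), φ (u - û)⟫ := by positivity
    rw [hc]
    linarith
  have hFe : F (θ - δ, u'', û) =
      D φ G (x - t • ((1 - (θ - δ)) • u'' + (θ - δ) • û)) ^ 2 + ε * (θ - δ) := rfl
  have hFe' : F (θ, u', û) = D φ G z ^ 2 + ε * θ := rfl
  rw [hFe, hFe'] at hFmin
  have h6 : (t * δ) ^ 2 * c < ε * δ := by
    have h7 : (t * δ) ^ 2 * c = δ * (δ * (t ^ 2 * c)) := by ring
    have h8 : δ * (t ^ 2 * c) < ε := by nlinarith
    rw [h7]
    have := mul_lt_mul_of_pos_left h8 hδ0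
    linarith
  nlinarith

end Pool.Agent.Lib.P6b15b2
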