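import Mathlib
import Pool.Agent.Lib.P6b15b2.Interp

/-!
# Sufficiency: if every exposed point of the sphere is smooth then Chebyshev sets are convex
-/

open Set Filter Topology Metric
open scoped RealInnerProductSpace

namespace Pool.Agent.Lib.P6b15b2

variable {E : Type*} [NormedAddCommGroup E] [NormedSpace ℝ E]

/-- projections of closed sets are closed if the fibres are locally bounded -/
theorem isClosed_proj {X Z : Type*} [TopologicalSpace X] [PseudoMetricSpace Z] [ProperSpace Z]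
    {A : Set (X × Z)} (hA : IsClosed A)
    (hb : ∀ x, ∃ z₀ : Z, ∃ R : ℝ, ∀ᶠ y in 𝓝 x, ∀ z, (y, z) ∈ A → dist z z₀ ≤ R) :
    IsClosed {x | ∃ z, (x, z) ∈ A} := by
  rw [isClosed_iff_ultrafilter]
  intro x u hu hs
  obtain ⟨z₀, R, hR⟩ := hb x
  have : Nonempty Z := ⟨z₀⟩
  choose! f hf using fun (y : X) (hy : y ∈ {x | ∃ z, (x, z) ∈ A}) => hy
  have hev : ∀ᶠ y in (u : Filter X), f y ∈ closedBall z₀ R := by
    filter_upwards [hs, hu hR] with y hy1 hy2
    exact hy2 _ (hf y hy1)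
  obtain ⟨a, -, ha⟩ := isCompact_iff_ultrafilter_le_nhds.1 (isCompact_closedBall z₀ R)
    (u.map f) (le_principal_iff.2 hev)
  refine ⟨a, hA.mem_of_tendsto (b := (u : Filter X)) (f := fun y => (y, f y)) ?_ ?_⟩
  · exact Tendsto.prodMk_nhds hu ha
  · filter_upwards [hs] with y hy
    exact hf y hy

variable {V : Type*} [NormedAddCommGroup V] [InnerProductSpace ℝ V]
variable (φ : E ≃L[ℝ] V) {G : Set E}

theorem N2_bound (hne : G.Nonempty) (x : E) :
    ∃ R : ℝ, ∀ᶠ y in 𝓝 x, ∀ g, N2 φ G y g → ‖g‖ ≤ R := by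
  obtain ⟨h₀, hh₀⟩ := hne
  have hcont : Continuous fun y : E =>
      ‖y‖ + ‖(φ.symm : V →L[ℝ] E)‖ * ‖φ (y - h₀)‖ := by
    have : Continuous fun y : E => φ (y - h₀) := φ.continuous.comp (continuous_id.sub
      continuous_const)
    exact continuous_norm.add (continuous_const.mul this.norm)
  refine ⟨‖x‖ + ‖(φ.symm : V →L[ℝ] E)‖ * ‖φ (x - h₀)‖ + 1, ?_⟩
  have hev := hcont.continuousAt (x := x) |>.eventually
    (gt_mem_nhds (lt_add_one (‖x‖ + ‖(φ.symm : V →L[ℝ] E)‖ * ‖φ (x - h₀)‖)))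
  filter_upwards [hev] with y hy g hg
  have h1 : ‖y - g‖ ≤ ‖(φ.symm : V →L[ℝ] E)‖ * ‖φ (y - g)‖ := by
    have := (φ.symm : V →L[ℝ] E).le_opNorm (φ (y - g))
    have h2 : (φ.symm : V →L[ℝ] E) (φ (y - g)) = y - g := φ.symm_apply_apply _
    rwa [h2] at this
  have h2 : ‖φ (y - g)‖ ≤ ‖φ (y - h₀)‖ := hg.2 h₀ hh₀
  have h3 : ‖g‖ ≤ ‖y‖ + ‖y - g‖ := by
    have : g = y - (y - g) := by abel
    calc ‖g‖ = ‖y - (y - g)‖ := by rw [← this]
      _ ≤ _ := norm_sub_le _ _
  have h4 : ‖(φ.symm : V →L[ℝ] E)‖ * ‖φ (y - g)‖ ≤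
      ‖(φ.symm : V →L[ℝ] E)‖ * ‖φ (y - h₀)‖ := by gcongr
  linarith

theorem isClosed_N2 (hG : IsClosed G) : IsClosed {q : E × E | N2 φ G q.1 q.2} := by
  have h1 : {q : E × E | N2 φ G q.1 q.2} =
      (Prod.snd ⁻¹' G) ∩ ⋂ h ∈ G, {q : E × E | ‖φ (q.1 - q.2)‖ ≤ ‖φ (q.1 - h)‖} := by
    ext q
    simp [N2]
  rw [h1]
  refine (hG.preimage continuous_snd).inter (isClosed_biInter fun h _ => ?_)
  have hc : Continuous fun q : E × E => φ (q.1 - q.2) :=
    φ.continuous.comp (continuous_fst.sub continuous_snd)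
  have hc' : Continuous fun q : E × E => φ (q.1 - h) :=
    φ.continuous.comp (continuous_fst.sub continuous_const)
  exact isClosed_le hc.norm hc'.norm

theorem isClosed_Mx : IsClosed {q : E × E | Mx φ q.1 q.2} := by
  have h1 : {q : E × E | Mx φ q.1 q.2} = {q : E × E | ‖q.2‖ ≤ 1} ∩
      ⋂ w ∈ {w : E | ‖w‖ ≤ 1}, {q : E × E | ⟪φ q.1, φ w⟫ ≤ ⟪φ q.1, φ q.2⟫} := by
    ext q
    simp [Mx]
  rw [h1]
  refine (isClosed_le continuous_snd.norm continuous_const).inter
    (isClosed_biInter fun w _ => ?_)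
  have hc : Continuous fun q : E × E => φ q.1 := φ.continuous.comp continuous_fst
  have hc' : Continuous fun q : E × E => φ q.2 := φ.continuous.comp continuous_snd
  exact isClosed_le (hc.inner continuous_const) (hc.inner hc')

/-- the set of points with a nearest point at which the normal is global -/
def Good (G : Set E) : Set E :=
  {x | ∃ g, N2 φ G x g ∧ ∀ h ∈ G, ⟪φ (x - g), φ (h - g)⟫ ≤ 0}

/-- the set of points with a nearest point whose normal face meets both balls -/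
def Bad (G : Set E) (a b : E) (ρ : ℝ) : Set E :=
  {x | ∃ q : E × E × E, N2 φ G x q.1 ∧ Mx φ (x - q.1) q.2.1 ∧ Mx φ (x - q.1) q.2.2 ∧
    dist q.2.1 a ≤ ρ ∧ dist q.2.2 b ≤ ρ ∧ 2 * ρ < dist a b}

variable [FiniteDimensional ℝ E]

theorem isClosed_Good (hG : IsClosed G) (hne : G.Nonempty) : IsClosed (Good φ G) := by
  have : ProperSpace E := FiniteDimensional.proper ℝ E
  refine isClosed_proj (A := {q : E × E | N2 φ G q.1 q.2 ∧
    ∀ h ∈ G, ⟪φ (q.1 - q.2), φ (h - q.2)⟫ ≤ 0}) ?_ ?_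
  · have h1 : {q : E × E | N2 φ G q.1 q.2 ∧ ∀ h ∈ G, ⟪φ (q.1 - q.2), φ (h - q.2)⟫ ≤ 0} =
        {q : E × E | N2 φ G q.1 q.2} ∩
          ⋂ h ∈ G, {q : E × E | ⟪φ (q.1 - q.2), φ (h - q.2)⟫ ≤ 0} := by
      ext q
      simp
    rw [h1]
    refine (isClosed_N2 φ hG).inter (isClosed_biInter fun h _ => ?_)
    have hc : Continuous fun q : E × E => φ (q.1 - q.2) :=
      φ.continuous.comp (continuous_fst.sub continuous_snd)
    have hc' : Continuous fun q : E × E => φ (h - q.2) :=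
      φ.continuous.comp (continuous_const.sub continuous_snd)
    exact isClosed_le (hc.inner hc') continuous_const
  · intro x
    obtain ⟨R, hR⟩ := N2_bound φ hne x
    refine ⟨0, R, ?_⟩
    filter_upwards [hR] with y hy g hg
    rw [dist_zero_right]
    exact hy g hg.1

theorem isClosed_Bad (hG : IsClosed G) (hne : G.Nonempty) (a b : E) (ρ : ℝ) :
    IsClosed (Bad φ G a b ρ) := by
  have : ProperSpace E := FiniteDimensional.proper ℝ E
  refine isClosed_proj (A := {q : E × (E × E × E) | N2 φ G q.1 q.2.1 ∧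
    Mx φ (q.1 - q.2.1) q.2.2.1 ∧ Mx φ (q.1 - q.2.1) q.2.2.2 ∧
    dist q.2.2.1 a ≤ ρ ∧ dist q.2.2.2 b ≤ ρ ∧ 2 * ρ < dist a b}) ?_ ?_
  · refine IsClosed.inter (s₁ := {q : E × (E × E × E) | N2 φ G q.1 q.2.1}) ?_ ?_
    · exact (isClosed_N2 φ hG).preimage (f := fun q : E × (E × E × E) => (q.1, q.2.1))
        (by fun_prop)
    refine IsClosed.inter (s₁ := {q : E × (E × E × E) | Mx φ (q.1 - q.2.1) q.2.2.1}) ?_ ?_
    · exact (isClosed_Mx φ).preimage (f := fun q : E × (E × E × E) => (q.1 - q.2.1, q.2.2.1))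
        (by fun_prop)
    refine IsClosed.inter (s₁ := {q : E × (E × E × E) | Mx φ (q.1 - q.2.1) q.2.2.2}) ?_ ?_
    · exact (isClosed_Mx φ).preimage (f := fun q : E × (E × E × E) => (q.1 - q.2.1, q.2.2.2))
        (by fun_prop)
    refine IsClosed.inter (s₁ := {q : E × (E × E × E) | dist q.2.2.1 a ≤ ρ}) ?_ ?_
    · exact isClosed_le (by fun_prop) continuous_const
    refine IsClosed.inter (s₁ := {q : E × (E × E × E) | dist q.2.2.2 b ≤ ρ}) ?_ ?_
    · exact isClosed_le (by fun_prop) continuous_const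
    · exact isClosed_const
  · intro x
    obtain ⟨R, hR⟩ := N2_bound φ hne x
    refine ⟨0, max R 1, ?_⟩
    filter_upwards [hR] with y hy q hq
    rw [dist_zero_right, Prod.norm_def, Prod.norm_def]
    refine max_le ((hy q.1 hq.1).trans (le_max_left _ _)) (max_le ?_ ?_)
    · exact hq.2.1.1.trans (le_max_right _ _)
    · exact hq.2.2.1.1.trans (le_max_right _ _)

/-- The hypothesis: every exposed point of the unit ball (of norm one) is smooth. -/
def ES (E : Type*) [NormedAddCommGroup E] [NormedSpace ℝ E] : Prop :=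
  ∀ u : E, ‖u‖ = 1 → u ∈ (closedBall (0 : E) 1).exposedPoints ℝ → Smooth u

theorem two_max (hG : Cheb G) (hES : ES E) {x : E} (hx : x ∉ Good φ G) {g : E}
    (hg : N2 φ G x g) : ∃ u u', Mx φ (x - g) u ∧ Mx φ (x - g) u' ∧ u ≠ u' := by
  have : ProperSpace E := FiniteDimensional.proper ℝ E
  have hxg : x - g ≠ 0 := by
    intro h
    refine hx ⟨g, hg, fun h' _ => ?_⟩
    rw [h]
    simp
  set ℓ : StrongDual ℝ E := (innerSL ℝ (φ (x - g))).comp (φ : E →L[ℝ] V) with hℓ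
  have hℓa : ∀ w, ℓ w = ⟪φ (x - g), φ w⟫ := fun w => rfl
  obtain ⟨u, hu1, humax⟩ := (isCompact_closedBall (0 : E) 1).exists_isMaxOn
    ⟨0, by simp⟩ ℓ.continuous.continuousOn
  have hu1' : ‖u‖ ≤ 1 := by simpa using hu1
  have hMu : Mx φ (x - g) u := ⟨hu1', fun w hw => humax (by simpa using hw)⟩
  by_contra hcon
  push Not at hcon
  have huniq : ∀ w, Mx φ (x - g) w → w = u := fun w hw => (hcon u w hMu hw).symm
  -- `ℓ u > 0`
  have hpos : 0 < ℓ (x - g) := by
    rw [hℓa, real_inner_self_eq_norm_sq]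
    have : φ (x - g) ≠ 0 := by
      intro h
      exact hxg (φ.injective (by rw [h, map_zero]))
    have := norm_pos_iff.2 this
    positivity
  have hn0 : 0 < ‖x - g‖ := norm_pos_iff.2 hxg
  have hℓu : 0 < ℓ u := by
    have h1 := hMu.2 ((1 / ‖x - g‖) • (x - g)) (by
      rw [norm_smul, Real.norm_eq_abs, abs_of_pos (by positivity)]
      field_simp
      exact le_rfl)
    rw [← hℓa, ← hℓa, map_smul, smul_eq_mul] at h1
    have : 0 < 1 / ‖x - g‖ * ℓ (x - g) := by positivity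
    linarith
  have hu0 : u ≠ 0 := by
    rintro rfl
    simp at hℓu
  have hun : 0 < ‖u‖ := norm_pos_iff.2 hu0
  have hnorm : ‖u‖ = 1 := by
    refine le_antisymm hu1' ?_
    have h1 := hMu.2 ((1 / ‖u‖) • u) (by
      rw [norm_smul, Real.norm_eq_abs, abs_of_pos (by positivity)]
      field_simp
      exact le_rfl)
    rw [← hℓa, ← hℓa, map_smul, smul_eq_mul] at h1
    have h2 : 1 / ‖u‖ ≤ 1 := by
      by_contra h3
      rw [not_le] at h3
      nlinarith
    rwa [div_le_one hun] at h2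
  have hmax : ∀ w, ‖w‖ ≤ 1 → ℓ w ≤ ℓ u ∧ (ℓ u ≤ ℓ w → w = u) := by
    intro w hw
    refine ⟨hMu.2 w hw, fun h => huniq w ⟨hw, fun w' hw' => ?_⟩⟩
    have := hMu.2 w' hw'
    rw [← hℓa, ← hℓa] at this ⊢
    exact this.trans h
  have hexp : u ∈ (closedBall (0 : E) 1).exposedPoints ℝ :=
    ⟨hu1, ℓ, fun w hw => hmax w (by simpa using hw)⟩
  have hC : ∀ h ∈ G, ℓ (h - g) ≤ ‖(φ : E →L[ℝ] V)‖ ^ 2 * ‖h - g‖ ^ 2 := by
    intro h hh
    have h1 := hg.2 h hh
    have h2 : x - h = (x - g) - (h - g) := by abel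
    have h3 : ‖φ (x - g)‖ ^ 2 ≤ ‖φ (x - h)‖ ^ 2 := by gcongr
    rw [h2, map_sub φ (x - g) (h - g), norm_sub_sq_real] at h3
    have h4 : ‖φ (h - g)‖ ≤ ‖(φ : E →L[ℝ] V)‖ * ‖h - g‖ := (φ : E →L[ℝ] V).le_opNorm _
    have h5 : ‖φ (h - g)‖ ^ 2 ≤ (‖(φ : E →L[ℝ] V)‖ * ‖h - g‖) ^ 2 := by gcongr
    rw [mul_pow] at h5
    have h6 : 0 ≤ ‖(φ : E →L[ℝ] V)‖ ^ 2 * ‖h - g‖ ^ 2 := by positivity
    rw [hℓa]
    linarith
  refine hx ⟨g, hg, ?_⟩
  exact global_normal hG hg.1 ℓ (by positivity) hC hnorm hmax (hES u hnorm hexp)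

omit [FiniteDimensional ℝ E] in
theorem convex_of_good (h : Good φ G = univ) :
    Convex ℝ G := by
  have hset : G = ⋂ q ∈ {q : E × E | q.2 ∈ G ∧ ∀ h ∈ G, ⟪φ (q.1 - q.2), φ (h - q.2)⟫ ≤ 0},
      {z : E | ⟪φ (q.1 - q.2), φ (z - q.2)⟫ ≤ 0} := by
    apply Subset.antisymm
    · intro z hz
      simp only [mem_iInter, mem_ofPred_eq]
      intro q hq
      exact hq.2 z hz
    · intro z hz
      simp only [mem_iInter, mem_ofPred_eq] at hz
      have hzU : z ∈ Good φ G := by rw [h]; trivial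
      obtain ⟨g, hg, hgl⟩ := hzU
      have h1 := hz (z, g) ⟨hg.1, hgl⟩
      simp only at h1
      rw [real_inner_self_eq_norm_sq] at h1
      have h2 : φ (z - g) = 0 := by
        by_contra hne
        have := norm_pos_iff.2 hne
        have : 0 < ‖φ (z - g)‖ ^ 2 := by positivity
        linarith
      have h3 : z - g = 0 := φ.injective (by rw [h2, map_zero])
      rw [sub_eq_zero.1 h3]
      exact hg.1
  rw [hset]
  refine convex_iInter₂ fun q _ => ?_
  intro z hz z' hz' a b ha hb hab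
  simp only [mem_ofPred_eq] at hz hz' ⊢
  have h1 : a • z + b • z' - q.2 = a • (z - q.2) + b • (z' - q.2) := by
    have : q.2 = (a + b) • q.2 := by rw [hab, one_smul]
    nth_rewrite 1 [this]
    module
  rw [h1, map_add, map_smul, map_smul, inner_add_right, inner_smul_right, inner_smul_right]
  nlinarith

end Pool.Agent.Lib.P6b15b2
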