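import Mathlib
import Pool.Agent.Lib.P6b15b2.Suff

/-!
# Sufficiency, conclusion
-/

open Set Filter Topology Metric
open scoped RealInnerProductSpace

namespace Pool.Agent.Lib.P6b15b2

variable {E : Type*} [NormedAddCommGroup E] [NormedSpace ℝ E]
variable {V : Type*} [NormedAddCommGroup V] [InnerProductSpace ℝ V]
variable (φ : E ≃L[ℝ] V) {G : Set E}

theorem good_of_mem {x : E} (hx : x ∈ G) : x ∈ Good φ G :=
  ⟨x, ⟨hx, fun h _ => by simp⟩, fun h _ => by simp⟩

/-- moving towards a nearest point makes it the unique nearest point -/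
theorem unique_near {A : Set E} {x η : E} (hη : N2 φ A x η) {κ : ℝ} (hκ : 0 < κ) {η' : E}
    (hη' : η' ∈ A)
    (hle : ‖φ (x + κ • (η - x) - η')‖ ≤ ‖φ (x + κ • (η - x) - η)‖) (hκ1 : κ < 1) : η' = η := by
  set a : V := φ (x - η) with ha
  set c : V := φ (x - η') with hc
  have hac : ‖a‖ ≤ ‖c‖ := hη.2 η' hη'
  have h1 : φ (x + κ • (η - x) - η') = c - κ • a := by
    rw [ha, hc, ← map_smul, ← map_sub]
    congr 1
    module
  have h2 : φ (x + κ • (η - x) - η) = (1 - κ) • a := by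
    rw [ha, ← map_smul]
    congr 1
    module
  rw [h1, h2, norm_smul, Real.norm_eq_abs, abs_of_pos (by linarith)] at hle
  have h3 : ‖c‖ ≤ ‖a‖ := by
    have h4 : ‖c‖ ≤ ‖c - κ • a‖ + ‖κ • a‖ := by
      simpa using norm_add_le (c - κ • a) (κ • a)
    rw [norm_smul, Real.norm_eq_abs, abs_of_pos hκ] at h4
    linarith
  have h4 : ‖c - κ • a‖ ^ 2 ≤ ((1 - κ) * ‖a‖) ^ 2 := by gcongr
  rw [norm_sub_sq_real, inner_smul_right, norm_smul, mul_pow, Real.norm_eq_abs, sq_abs] at h4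
  have h5 : ‖c‖ = ‖a‖ := le_antisymm h3 hac
  have h6 : ‖a‖ ^ 2 ≤ ⟪c, a⟫ := by
    rw [h5] at h4
    nlinarith
  have h7 : ‖c - a‖ ^ 2 ≤ 0 := by
    rw [norm_sub_sq_real, h5]
    linarith
  have h8 : c - a = 0 := by
    have : ‖c - a‖ = 0 := by
      have := sq_nonneg ‖c - a‖
      exact pow_eq_zero_iff (two_ne_zero) |>.1 (le_antisymm h7 this)
    exact norm_eq_zero.1 this
  have h9 : c - a = φ (η - η') := by
    rw [ha, hc, ← map_sub]
    congr 1
    abel
  rw [h9] at h8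
  have h10 : η - η' = 0 := φ.injective (by rw [h8, map_zero])
  exact (sub_eq_zero.1 h10).symm

variable [FiniteDimensional ℝ E]

theorem suff (hG : Cheb G) (hES : ES E) : Convex ℝ G := by
  by_contra hnc
  have : ProperSpace E := FiniteDimensional.proper ℝ E
  let φ : E ≃L[ℝ] EuclideanSpace ℝ (Fin (Module.finrank ℝ E)) := toEuclidean
  have hcl := hG.isClosed
  have hne := hG.nonempty
  have hgood : Good φ G ≠ univ := fun h => hnc (convex_of_good φ h)
  have hopen : IsOpen (Good φ G)ᶜ := (isClosed_Good φ hcl hne).isOpen_compl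
  have hnonempty : ((Good φ G)ᶜ).Nonempty := nonempty_compl.2 hgood
  set d : ℕ → E := TopologicalSpace.denseSeq E with hd
  have hdense : ∀ (u : E) (e : ℝ), 0 < e → ∃ n, dist u (d n) < e := by
    intro u e he
    exact (TopologicalSpace.denseRange_denseSeq E).exists_dist_lt u he
  set f : Option (ℕ × ℕ × ℕ) → Set E := fun i => match i with
    | none => Good φ G
    | some q => Bad φ G (d q.1) (d q.2.1) (1 / ((q.2.2 : ℝ) + 1)) with hf
  have hfc : ∀ i, IsClosed (f i) := by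
    rintro (_ | q)
    · exact isClosed_Good φ hcl hne
    · exact isClosed_Bad φ hcl hne _ _ _
  have hfu : ⋃ i, f i = univ := by
    rw [eq_univ_iff_forall]
    intro x
    rw [mem_iUnion]
    by_cases hx : x ∈ Good φ G
    · exact ⟨none, hx⟩
    · obtain ⟨g, hg⟩ := exists_N2 φ hcl hne x
      obtain ⟨u, u', hu, hu', huu⟩ := two_max φ hG hES hx hg
      have hpos : 0 < dist u u' := dist_pos.2 huu
      obtain ⟨k, hk⟩ := exists_nat_one_div_lt (show 0 < dist u u' / 4 by linarith)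
      have hk0 : (0 : ℝ) < 1 / ((k : ℝ) + 1) := by positivity
      obtain ⟨i, hi⟩ := hdense u _ hk0
      obtain ⟨j, hj⟩ := hdense u' _ hk0
      refine ⟨some (i, j, k), (g, u, u'), hg, hu, hu', hi.le, hj.le, ?_⟩
      have h1 : dist u u' ≤ dist u (d i) + dist (d i) (d j) + dist (d j) u' :=
        dist_triangle4 _ _ _ _
      rw [dist_comm (d j) u'] at h1
      simp only at h1 ⊢
      linarith
  obtain ⟨x₁, hx₁, hx₁'⟩ := (dense_iUnion_interior_of_closed hfc hfu).inter_open_nonempty _ hopen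
    hnonempty
  rw [mem_iUnion] at hx₁'
  obtain ⟨i, hi⟩ := hx₁'
  rcases i with _ | ⟨a, b, k⟩
  · exact hx₁ (interior_subset hi)
  set ρ : ℝ := 1 / ((k : ℝ) + 1) with hρ
  have hW : IsOpen ((Good φ G)ᶜ ∩ interior (Bad φ G (d a) (d b) ρ)) :=
    hopen.inter isOpen_interior
  obtain ⟨ε, hε, hball⟩ := Metric.isOpen_iff.1 hW x₁ ⟨hx₁, hi⟩
  set t : ℝ := ε / 4 with ht
  have ht0 : 0 < t := by rw [ht]; linarith
  have hmemball : ∀ x₀ : E, ‖x₀ - x₁‖ < ε / 4 → ∀ w : E, ‖w‖ ≤ 1 → x₀ - t • w ∈ ball x₁ ε := by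
    intro x₀ h0 w hw
    rw [mem_ball, dist_eq_norm]
    have h1 : x₀ - t • w - x₁ = (x₀ - x₁) - t • w := by abel
    have h2 : ‖t • w‖ ≤ t := by
      rw [norm_smul, Real.norm_eq_abs, abs_of_pos ht0]
      nlinarith
    rw [h1]
    have := norm_sub_le (x₀ - x₁) (t • w)
    linarith
  -- the parallel body
  set A : Set E := {z | ‖z - hG.P z‖ ≤ t} with hA
  have hAc : IsClosed A :=
    isClosed_le (continuous_id.sub hG.continuous).norm continuous_const
  have hmemA : ∀ z h, h ∈ G → ‖z - h‖ ≤ t → z ∈ A := fun z h hh hz =>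
    ((hG.near z).2 h hh).trans hz
  have hAn : A.Nonempty := by
    obtain ⟨g, hg⟩ := hne
    exact ⟨g, hmemA g g hg (by simpa using ht0.le)⟩
  obtain ⟨η, hη⟩ := exists_N2 φ hAc hAn x₁
  set κ : ℝ := min (1 / 2) (ε / (8 * (‖η - x₁‖ + 1))) with hκ
  have hden : 0 < 8 * (‖η - x₁‖ + 1) := by positivity
  have hκ0 : 0 < κ := lt_min (by norm_num) (div_pos hε hden)
  have hκ1 : κ < 1 := (min_le_left _ _).trans_lt (by norm_num)
  set x₀ : E := x₁ + κ • (η - x₁) with hx₀
  have hx₀n : ‖x₀ - x₁‖ < ε / 4 := by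
    have h1 : x₀ - x₁ = κ • (η - x₁) := by simp [hx₀]
    rw [h1, norm_smul, Real.norm_eq_abs, abs_of_pos hκ0]
    have h2 : κ * (8 * (‖η - x₁‖ + 1)) ≤ ε := by
      have := min_le_right (1 / 2) (ε / (8 * (‖η - x₁‖ + 1)))
      rwa [← hκ, le_div_iff₀ hden] at this
    nlinarith [norm_nonneg (η - x₁)]
  have huniq : ∀ η' ∈ A, ‖φ (x₀ - η')‖ ≤ ‖φ (x₀ - η)‖ → η' = η := fun η' h1 h2 =>
    unique_near φ hη hκ0 h1 h2 hκ1
  -- `x₀ - t w` avoids `G`
  have havoid : ∀ w : E, ‖w‖ ≤ 1 → x₀ - t • w ∉ G := fun w hw hmem =>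
    (hball (hmemball x₀ hx₀n w hw)).1 (good_of_mem φ hmem)
  have hx₀A : x₀ ∉ A := by
    intro hmem
    refine havoid ((1 / t) • (x₀ - hG.P x₀)) ?_ ?_
    · rw [norm_smul, Real.norm_eq_abs, abs_of_pos (by positivity), one_div,
        inv_mul_le_one₀ ht0]
      exact hmem
    · rw [smul_smul]
      have : t * (1 / t) = 1 := by field_simp
      rw [this, one_smul]
      simpa using (hG.near x₀).1
  -- every point of `G` has distance at least `t` from `η`
  have hfar : ∀ h ∈ G, t ≤ ‖η - h‖ := by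
    intro h hh
    by_contra hcon
    rw [not_le] at hcon
    set s : ℝ := min 1 ((t - ‖η - h‖) / (‖x₀ - η‖ + 1)) with hs
    have hden' : 0 < ‖x₀ - η‖ + 1 := by positivity
    have hs0 : 0 < s := lt_min one_pos (div_pos (by linarith) hden')
    have hs1 : s ≤ 1 := min_le_left _ _
    have hs2 : s * (‖x₀ - η‖ + 1) ≤ t - ‖η - h‖ := by
      have := min_le_right 1 ((t - ‖η - h‖) / (‖x₀ - η‖ + 1))
      rwa [← hs, le_div_iff₀ hden'] at this
    have hmem : η + s • (x₀ - η) ∈ A := by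
      refine hmemA _ h hh ?_
      have h1 : η + s • (x₀ - η) - h = (η - h) + s • (x₀ - η) := by abel
      rw [h1]
      refine (norm_add_le _ _).trans ?_
      rw [norm_smul, Real.norm_eq_abs, abs_of_pos hs0]
      nlinarith [norm_nonneg (x₀ - η)]
    have heq := huniq _ hmem (by
      have h1 : x₀ - (η + s • (x₀ - η)) = (1 - s) • (x₀ - η) := by module
      rw [h1, map_smul, norm_smul, Real.norm_eq_abs, abs_of_nonneg (by linarith)]
      nlinarith [norm_nonneg (φ (x₀ - η))])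
    have h2 : s • (x₀ - η) = 0 := by simpa using heq
    rcases smul_eq_zero.1 h2 with h3 | h3
    · exact hs0.ne' h3
    · refine hx₀A ?_
      rw [sub_eq_zero.1 h3]
      exact hη.1
  -- the reference direction
  set w₀ : E := (1 / t) • (η - hG.P η) with hw₀
  have hw₀n : ‖w₀‖ ≤ 1 := by
    rw [hw₀, norm_smul, Real.norm_eq_abs, abs_of_pos (by positivity), one_div,
      inv_mul_le_one₀ ht0]
    exact hη.1
  have hDw : D φ G (x₀ - t • w₀) ≤ ‖φ (x₀ - η)‖ := by
    have h1 := D_le φ (x := x₀ - t • w₀) (hG.near η).1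
    have h2 : x₀ - t • w₀ - hG.P η = x₀ - η := by
      rw [hw₀, smul_smul]
      have : t * (1 / t) = 1 := by field_simp
      rw [this, one_smul]
      abel
    rwa [h2] at h1
  -- the key consequence of interpolation
  have key : ∀ c : E, (∀ w : E, ‖w‖ ≤ 1 → ∃ g, N2 φ G (x₀ - t • w) g ∧
      ∃ u ∈ closedBall c ρ ∩ closedBall (0 : E) 1, Mx φ (x₀ - t • w - g) u) →
      ∃ u : E, dist u c ≤ ρ ∧ η = hG.P η + t • u := by
    intro c hc
    obtain ⟨u, hu, hle⟩ := interp φ (G := G)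
      ((isCompact_closedBall c ρ).inter_right (isClosed_closedBall (x := (0 : E)) (ε := 1)))
      ((convex_closedBall c ρ).inter (convex_closedBall (0 : E) 1)) ht0
      (fun u hu => by simpa using hu.2) hc hw₀n
    have hu1 : ‖u‖ ≤ 1 := by simpa using hu.2
    obtain ⟨g, hg⟩ := exists_N2 φ hcl hne (x₀ - t • u)
    have htu : ‖t • u‖ ≤ t := by
      rw [norm_smul, Real.norm_eq_abs, abs_of_pos ht0]
      nlinarith
    have h1 : g + t • u = η := by
      refine huniq _ (hmemA _ g hg.1 (by simpa using htu)) ?_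
      have h2 : x₀ - (g + t • u) = x₀ - t • u - g := by abel
      rw [h2, ← D_eq φ hg]
      exact hle.trans hDw
    have h2 : g = hG.P η := by
      refine hG.eq ⟨hg.1, fun h hh => ?_⟩
      have h3 : η - g = t • u := by rw [← h1]; abel
      rw [h3]
      exact htu.trans (hfar h hh)
    refine ⟨u, by simpa using hu.1, ?_⟩
    rw [← h2, h1]
  obtain ⟨u₁, hu₁, he₁⟩ := key (d a) (fun w hw => by
    obtain ⟨q, hq1, hq2, -, hq4, -⟩ := interior_subset (hball (hmemball x₀ hx₀n w hw)).2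
    exact ⟨q.1, hq1, q.2.1, ⟨by simpa using hq4, by simpa using hq2.1⟩, hq2⟩)
  obtain ⟨u₂, hu₂, he₂⟩ := key (d b) (fun w hw => by
    obtain ⟨q, hq1, -, hq3, -, hq5, -⟩ := interior_subset (hball (hmemball x₀ hx₀n w hw)).2
    exact ⟨q.1, hq1, q.2.2, ⟨by simpa using hq5, by simpa using hq3.1⟩, hq3⟩)
  have huu : u₁ = u₂ := by
    have h1 : t • u₁ = t • u₂ := add_left_cancel (he₁.symm.trans he₂)
    exact smul_right_injective E ht0.ne' h1
  obtain ⟨q, -, -, -, -, -, hq6⟩ := interior_subset hi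
  have h1 : dist (d a) (d b) ≤ dist (d a) u₁ + dist u₁ (d b) := dist_triangle _ _ _
  rw [dist_comm (d a) u₁] at h1
  rw [← huu] at hu₂
  linarith

end Pool.Agent.Lib.P6b15b2
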