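import Mathlib
import Pool.Agent.Lib.P6b15b2.Normal

/-!
# Necessity: a nonsmooth exposed point yields a nonconvex Chebyshev set
-/

open Set Filter Topology Metric

namespace Pool.Agent.Lib.P6b15b2

variable {E : Type*} [NormedAddCommGroup E] [NormedSpace ℝ E]

theorem apply_le_of_norm {f : StrongDual ℝ E} (hf : ‖f‖ ≤ 1) (y : E) : f y ≤ ‖y‖ := by
  have := f.le_opNorm y
  calc f y ≤ |f y| := le_abs_self _
    _ ≤ ‖f‖ * ‖y‖ := this
    _ ≤ 1 * ‖y‖ := by gcongr
    _ = ‖y‖ := one_mul _

/-- Two functionals of norm at most one that both expose `u`: the union of two half-spaces is a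
Chebyshev set. -/
theorem cheb_union {u : E} {f k : StrongDual ℝ E} (hf : ‖f‖ ≤ 1) (hk : ‖k‖ ≤ 1)
    (hu : ‖u‖ = 1) (hfu : f u = 1) (hku : k u = 1)
    (hfe : ∀ y, ‖y‖ ≤ 1 → 1 ≤ f y → y = u) (hke : ∀ y, ‖y‖ ≤ 1 → 1 ≤ k y → y = u) :
    Cheb {z | f z ≤ 0 ∨ k z ≤ 0} := by
  intro x
  by_cases hx : f x ≤ 0 ∨ k x ≤ 0
  · refine ⟨x, ⟨hx, fun h _ => by simp⟩, fun g hg => ?_⟩
    have := hg.2 x hx
    simp only [sub_self, norm_zero] at this
    have h0 : ‖x - g‖ = 0 := le_antisymm this (norm_nonneg _)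
    exact (sub_eq_zero.1 (norm_eq_zero.1 h0)).symm
  · push Not at hx
    obtain ⟨hx1, hx2⟩ := hx
    set r : ℝ := min (f x) (k x) with hr
    have hr0 : 0 < r := lt_min hx1 hx2
    have hfar : ∀ h ∈ {z | f z ≤ 0 ∨ k z ≤ 0}, r ≤ ‖x - h‖ := by
      rintro h (hh | hh)
      · have := apply_le_of_norm hf (x - h)
        rw [map_sub] at this
        have := min_le_left (f x) (k x)
        linarith
      · have := apply_le_of_norm hk (x - h)
        rw [map_sub] at this
        have := min_le_right (f x) (k x)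
        linarith
    have hmem : x - r • u ∈ {z | f z ≤ 0 ∨ k z ≤ 0} := by
      simp only [mem_ofPred_eq, map_sub, map_smul, smul_eq_mul, hfu, hku, mul_one]
      rcases min_choice (f x) (k x) with h | h
      · left
        rw [hr, h]
        linarith
      · right
        rw [hr, h]
        linarith
    have hn : ‖x - (x - r • u)‖ = r := by
      rw [sub_sub_cancel, norm_smul, hu, mul_one, Real.norm_eq_abs, abs_of_pos hr0]
    refine ⟨x - r • u, ⟨hmem, fun h hh => ?_⟩, fun g hg => ?_⟩
    · rw [hn]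
      exact hfar h hh
    · have h1 : ‖x - g‖ ≤ r := by
        have := hg.2 _ hmem
        rwa [hn] at this
      have h2 : ‖(1 / r) • (x - g)‖ ≤ 1 := by
        rw [norm_smul, Real.norm_eq_abs, abs_of_pos (by positivity), one_div,
          inv_mul_le_one₀ hr0]
        exact h1
      have h3 : (1 / r) • (x - g) = u := by
        rcases hg.1 with h | h
        · refine hfe _ h2 ?_
          rw [map_smul, map_sub, smul_eq_mul, one_div, ← div_eq_inv_mul, one_le_div hr0]
          have := min_le_left (f x) (k x)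
          linarith
        · refine hke _ h2 ?_
          rw [map_smul, map_sub, smul_eq_mul, one_div, ← div_eq_inv_mul, one_le_div hr0]
          have := min_le_right (f x) (k x)
          linarith
      rw [← h3, smul_smul]
      have : r * (1 / r) = 1 := by field_simp
      rw [this, one_smul]
      abel

theorem not_convex_union {u : E} {f k : StrongDual ℝ E} (hfu : f u = 1) (hku : k u = 1)
    (hne : f ≠ k) : ¬ Convex ℝ {z | f z ≤ 0 ∨ k z ≤ 0} := by
  intro hcv
  obtain ⟨v, hv⟩ : ∃ v, f v ≠ k v := by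
    by_contra hcon
    push Not at hcon
    exact hne (ContinuousLinearMap.ext hcon)
  have hc : k v - f v ≠ 0 := sub_ne_zero.2 hv.symm
  set a : E := (1 / (k v - f v)) • (v - f v • u) with ha
  have hfa : f a = 0 := by
    rw [ha, map_smul, map_sub, map_smul, hfu]
    simp
  have hka : k a = 1 := by
    rw [ha, map_smul, map_sub, map_smul, hku]
    simp only [smul_eq_mul, mul_one]
    field_simp
  have h1 : (4 : ℝ) • a - u ∈ {z | f z ≤ 0 ∨ k z ≤ 0} := by
    left
    rw [map_sub, map_smul, hfa, hfu]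
    norm_num
  have h2 : (3 : ℝ) • u - (4 : ℝ) • a ∈ {z | f z ≤ 0 ∨ k z ≤ 0} := by
    right
    rw [map_sub, map_smul, map_smul, hka, hku]
    norm_num
  have h3 := hcv h1 h2 (a := 1 / 2) (b := 1 / 2) (by norm_num) (by norm_num) (by norm_num)
  have h4 : (1 / 2 : ℝ) • ((4 : ℝ) • a - u) + (1 / 2 : ℝ) • ((3 : ℝ) • u - (4 : ℝ) • a) = u := by
    module
  rw [h4] at h3
  rcases h3 with h | h
  · rw [hfu] at h
    norm_num at h
  · rw [hku] at h
    norm_num at h

theorem nec (h : ∀ G : Set E, Cheb G → Convex ℝ G) {u : E} (hu : ‖u‖ = 1)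
    (hexp : u ∈ (closedBall (0 : E) 1).exposedPoints ℝ) : Smooth u := by
  obtain ⟨-, ℓ, hℓ⟩ := hexp
  have hu0 : u ≠ 0 := by
    rintro rfl
    simp at hu
  have hℓu : 0 < ℓ u := by
    by_contra hcon
    rw [not_lt] at hcon
    exact hu0 ((hℓ 0 (by simp)).2 (by simpa using hcon)).symm
  -- the normalised functional
  set f₁ : StrongDual ℝ E := (1 / ℓ u) • ℓ with hf₁
  have hf₁a : ∀ y, f₁ y = 1 / ℓ u * ℓ y := fun y => rfl
  have hf₁u : f₁ u = 1 := by
    rw [hf₁a]
    field_simp
  have hle : ∀ y : E, ‖y‖ ≤ 1 → f₁ y ≤ 1 := by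
    intro y hy
    rw [hf₁a, one_div, ← div_eq_inv_mul, div_le_one hℓu]
    exact (hℓ y (by simpa using hy)).1
  have hf₁n : ‖f₁‖ ≤ 1 := by
    refine f₁.opNorm_le_bound zero_le_one fun z => ?_
    have key : ∀ z : E, f₁ z ≤ 1 * ‖z‖ := by
      intro z
      rcases eq_or_ne z 0 with rfl | hz
      · simp
      · have hz0 : 0 < ‖z‖ := norm_pos_iff.2 hz
        have := hle ((1 / ‖z‖) • z) (by
          rw [norm_smul, Real.norm_eq_abs, abs_of_pos (by positivity)]
          field_simp
          exact le_rfl)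
        rw [map_smul, smul_eq_mul, one_div, ← div_eq_inv_mul, div_le_one hz0] at this
        linarith
    rw [Real.norm_eq_abs, abs_le]
    constructor
    · have := key (-z)
      rw [map_neg, norm_neg] at this
      linarith
    · exact key z
  have hfe : ∀ y, ‖y‖ ≤ 1 → 1 ≤ f₁ y → y = u := by
    intro y hy h1
    refine (hℓ y (by simpa using hy)).2 ?_
    rw [hf₁a, one_div, ← div_eq_inv_mul, one_le_div hℓu] at h1
    exact h1
  -- every norming functional equals `f₁`
  have key : ∀ f : StrongDual ℝ E, ‖f‖ = 1 → f u = 1 → f = f₁ := by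
    intro f hf hfu
    by_contra hne
    set k : StrongDual ℝ E := (1 / 2 : ℝ) • (f₁ + f) with hk
    have hka : ∀ y, k y = 1 / 2 * (f₁ y + f y) := fun y => rfl
    have hku : k u = 1 := by
      rw [hka, hf₁u, hfu]
      norm_num
    have hkn : ‖k‖ ≤ 1 := by
      rw [hk, norm_smul]
      have := norm_add_le f₁ f
      rw [Real.norm_eq_abs, abs_of_pos (by norm_num)]
      linarith
    have hke : ∀ y, ‖y‖ ≤ 1 → 1 ≤ k y → y = u := by
      intro y hy h1
      refine hfe y hy ?_
      rw [hka] at h1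
      have := (apply_le_of_norm hf.le y).trans hy
      linarith
    have hkf : f₁ ≠ k := by
      intro heq
      refine hne (ContinuousLinearMap.ext fun y => ?_)
      have : f₁ y = k y := by rw [← heq]
      rw [hka] at this
      linarith
    exact not_convex_union hf₁u hku hkf (h _ (cheb_union hf₁n hkn hu hf₁u hku hfe hke))
  intro f f' hf hfu hf' hf'u
  rw [key f hf hfu, key f' hf' hf'u]

end Pool.Agent.Lib.P6b15b2
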